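import Pool.Agent.Helper29.AR.Props
import Pool.Agent.Helper62.RC.Mp
import Pool.Agent.Helper13.SR.TTr
import Pool.Agent.Helper48.SR.NearC
import Pool.Agent.Helper6.RC.CuLeAdd
import Pool.Agent.Helper89.RC.CuSwap
import Pool.Agent.Helper15.RC.QMono
import Pool.Agent.Helper67.RC.Ped
import Pool.Agent.Helper69.RC.QB1
import Pool.Agent.Helper96.RC.QSwap
import Pool.Agent.Helper8.RC.QOfT
import Pool.Agent.Helper5.SR.MatT

/-!
# MP_b55b7c_an: packet AR-TSC, columns whose length is the order of the group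
-/

open scoped ENNReal NNReal InnerProductSpace ComplexOrder
open Filter Topology

attribute [-instance] CStarMatrix.instAlgebra CStarMatrix.instModule CStarMatrix.instSMul
  CStarMatrix.instMulAction CStarMatrix.instDistribMulAction

set_option linter.unusedSectionVars false

noncomputable section
namespace RC
universe u

/-! ### Lower bounds from left invertibility -/

section low
variable {R : Type u} [CStarAlgebra R] [PartialOrder R] [StarOrderedRing R]

theorem tsc7_sq_add (a b : R) : sq (a + b) ≤ (2 : ℝ) • sq a + (2 : ℝ) • sq b := by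
  have h : (2 : ℝ) • sq a + (2 : ℝ) • sq b - sq (a + b) = sq (a - b) := by
    simp only [sq, star_add, star_sub, two_smul]
    noncomm_ring
  rw [← sub_nonneg, h]
  exact star_mul_self_nonneg _

theorem tsc7_sq_mul (p x : R) : sq (p * x) ≤ ‖star p * p‖ • sq x := by
  have h := CStarAlgebra.star_left_conjugate_le_norm_smul (a := x) (b := star p * p)
    (IsSelfAdjoint.star_mul_self p)
  have e : sq (p * x) = star x * (star p * p) * x := by
    simp only [sq, star_mul, mul_assoc]
  rw [e]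
  exact h

theorem tsc7_low {ι : Type} (s : Finset ι) (p x : ι → R) :
    ∃ C : ℝ, 0 ≤ C ∧ sq (∑ i ∈ s, p i * x i) ≤ C • ∑ i ∈ s, sq (x i) := by
  classical
  induction s using Finset.induction_on with
  | empty => exact ⟨0, le_rfl, by simp [sq]⟩
  | insert i s hi ih =>
    obtain ⟨C, hC, h⟩ := ih
    rw [Finset.sum_insert hi, Finset.sum_insert hi]
    have h0 : 0 ≤ sq (x i) := star_mul_self_nonneg _
    have h1 : 0 ≤ ∑ i ∈ s, sq (x i) := Finset.sum_nonneg fun j _ => star_mul_self_nonneg _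
    have hn : 0 ≤ ‖star (p i) * p i‖ := norm_nonneg _
    refine ⟨2 * ‖star (p i) * p i‖ + 2 * C, by positivity, ?_⟩
    refine (tsc7_sq_add _ _).trans ?_
    have a1 : (2 : ℝ) • sq (p i * x i) ≤ (2 : ℝ) • (‖star (p i) * p i‖ • sq (x i)) :=
      smul_le_smul_of_nonneg_left (tsc7_sq_mul _ _) (by norm_num)
    have a2 : (2 : ℝ) • sq (∑ i ∈ s, p i * x i) ≤ (2 : ℝ) • (C • ∑ i ∈ s, sq (x i)) :=
      smul_le_smul_of_nonneg_left h (by norm_num)
    refine (add_le_add a1 a2).trans ?_
    rw [smul_smul, smul_smul, smul_add]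
    refine add_le_add ?_ ?_
    · exact smul_le_smul_of_nonneg_right (by linarith) h0
    · exact smul_le_smul_of_nonneg_right (by linarith) h1

theorem tsc7_low' {ι : Type} [Fintype ι] (p x : ι → R) (h : ∑ i, p i * x i = 1) :
    ∃ c : ℝ, 0 < c ∧ c • (1 : R) ≤ ∑ i, sq (x i) := by
  obtain ⟨C, hC, h1⟩ := tsc7_low Finset.univ p x
  rw [h] at h1
  have h2 : sq (1 : R) = 1 := by simp [sq]
  rw [h2] at h1
  have h0 : 0 ≤ ∑ i, sq (x i) := Finset.sum_nonneg fun j _ => star_mul_self_nonneg _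
  have h3 : (1 : R) ≤ (C + 1) • ∑ i, sq (x i) :=
    h1.trans (smul_le_smul_of_nonneg_right (by linarith) h0)
  refine ⟨(C + 1)⁻¹, by positivity, ?_⟩
  have h4 := smul_le_smul_of_nonneg_left h3 (by positivity : (0 : ℝ) ≤ (C + 1)⁻¹)
  rwa [smul_smul, inv_mul_cancel₀ (by positivity), one_smul] at h4

end low

/-! ### The functional calculus -/

section calc7
variable {D : Type u} [CStarAlgebra D] [PartialOrder D] [StarOrderedRing D]

theorem tsc7_inv (T : D) (hT : 0 ≤ T) (c : ℝ) (hc : 0 < c) :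
    cfc (fun t : ℝ => (max c t)⁻¹) T * (T + cfc (fun t : ℝ => max (c - t) 0) T) = 1 := by
  have hsa := hT.isSelfAdjoint
  have hp : ∀ t : ℝ, 0 < max c t := fun t => lt_max_of_lt_left hc
  have hcont : Continuous fun t : ℝ => (max c t)⁻¹ :=
    Continuous.inv₀ (by fun_prop) fun t => (hp t).ne'
  have e1 : T + cfc (fun t : ℝ => max (c - t) 0) T = cfc (fun t : ℝ => max c t) T := by
    have e3 := _root_.cfc_add T (fun t : ℝ => t) (fun t : ℝ => max (c - t) 0)
    rw [cfc_id' ℝ T] at e3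
    rw [← e3]
    refine cfc_congr fun t _ => ?_
    show t + max (c - t) 0 = max c t
    rcases le_total c t with h | h
    · rw [max_eq_right h, max_eq_right (by linarith), add_zero]
    · rw [max_eq_left h, max_eq_left (by linarith)]
      ring
  rw [e1, ← cfc_mul _ _ T hcont.continuousOn (by fun_prop)]
  have e2 : cfc (fun t : ℝ => (max c t)⁻¹ * max c t) T = cfc (fun _ : ℝ => (1 : ℝ)) T := by
    refine cfc_congr fun t _ => ?_
    exact inv_mul_cancel₀ (hp t).ne'
  rw [e2, cfc_const_one ℝ T]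

/-- The square of `(c - T)_+` is dominated by `h Z h` if `c ≤ T + Z`. -/
theorem tsc7_dom (T Z : D) (hT : 0 ≤ T) (c : ℝ) (h : c • (1 : D) ≤ T + Z) :
    cfc (fun t : ℝ => max (c - t) 0) T * cfc (fun t : ℝ => max (c - t) 0) T ≤
      cfc (fun t : ℝ => √(max (c - t) 0)) T * Z * cfc (fun t : ℝ => √(max (c - t) 0)) T := by
  have hsa := hT.isSelfAdjoint
  have hcont : Continuous fun t : ℝ => √(max (c - t) 0) := by fun_prop
  have h1 : c • (1 : D) - T ≤ Z := by rwa [sub_le_iff_le_add']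
  have h0sa : IsSelfAdjoint (cfc (fun t : ℝ => √(max (c - t) 0)) T) := cfc_predicate _ _
  have h2 : cfc (fun t : ℝ => √(max (c - t) 0)) T * (c • (1 : D) - T) *
      cfc (fun t : ℝ => √(max (c - t) 0)) T ≤
      cfc (fun t : ℝ => √(max (c - t) 0)) T * Z * cfc (fun t : ℝ => √(max (c - t) 0)) T := by
    have h3 := star_left_conjugate_le_conjugate h1 (cfc (fun t : ℝ => √(max (c - t) 0)) T)
    rwa [h0sa.star_eq] at h3
  refine le_trans (le_of_eq ?_) h2
  have e3 : c • (1 : D) - T = cfc (fun t : ℝ => c - t) T := by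
    have e4 := _root_.cfc_sub (fun _ : ℝ => c) (fun t : ℝ => t) T
    rw [cfc_id' ℝ T, cfc_const c T, Algebra.algebraMap_eq_smul_one] at e4
    exact e4.symm
  rw [e3, ← cfc_mul _ _ T (by fun_prop) (by fun_prop),
    ← cfc_mul _ _ T hcont.continuousOn (by fun_prop),
    ← cfc_mul _ _ T (by fun_prop) hcont.continuousOn]
  refine cfc_congr fun t _ => ?_
  show max (c - t) 0 * max (c - t) 0 = √(max (c - t) 0) * (c - t) * √(max (c - t) 0)
  have e5 : √(max (c - t) 0) * (c - t) * √(max (c - t) 0) =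
      (√(max (c - t) 0) * √(max (c - t) 0)) * (c - t) := by ring
  rw [e5, Real.mul_self_sqrt (le_max_right _ _)]
  rcases le_total (c - t) 0 with h | h
  · rw [max_eq_right h, zero_mul, zero_mul]
  · rw [max_eq_left h]

theorem tsc7_dim_sq (σ : QTrace D) (T : D) (c : ℝ) :
    σ.dim (one1 (cfc (fun t : ℝ => max (c - t) 0) T)) =
      σ.dim (one1 (cfc (fun t : ℝ => max (c - t) 0) T *
        cfc (fun t : ℝ => max (c - t) 0) T)) := by
  set J := cfc (fun t : ℝ => max (c - t) 0) T with hJ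
  have hJ0 : 0 ≤ J := cfc_nonneg fun t _ => le_max_right _ _
  have hJJ : 0 ≤ J * J := by
    have := star_mul_self_nonneg J
    rwa [hJ0.isSelfAdjoint.star_eq] at this
  have e1 : cfc Real.sqrt (J * J) = J := by
    have e2 : J * J = cfc (fun t : ℝ => t * t) J := by
      rw [cfc_mul (fun t : ℝ => t) (fun t : ℝ => t) J, cfc_id' ℝ J]
    rw [e2, ← cfc_comp' Real.sqrt (fun t : ℝ => t * t) J]
    conv_rhs => rw [← cfc_id' ℝ J]
    refine cfc_congr fun t ht => ?_
    exact Real.sqrt_mul_self (spectrum_nonneg_of_nonneg hJ0 ht)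
  rw [← ttr_dim_sqrt σ (J * J) hJJ, e1]

end calc7

/-! ### The rank estimate -/

section rank7
variable {R : Type u} [CStarAlgebra R] [PartialOrder R] [StarOrderedRing R]
variable {G : Type} [Fintype G] [DecidableEq G]

theorem tsc7_rank (hLe : CuLeAddP.{u}) (hSw : CuSwapP.{u}) (hMo : QMonoP.{u}) (σ : QTrace R)
    (M : CStarMatrix G G R) (hM : 0 ≤ M) (U : CStarMatrix G Unit R) (T Z : R) (hT : 0 ≤ T)
    (c : ℝ) (h : c • (1 : R) ≤ T + Z)
    (hZ : one1 Z = (M * U).conjTranspose * (M * U)) :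
    σ.dim (one1 (cfc (fun t : ℝ => max (c - t) 0) T)) ≤ σ.dim M := by
  rw [tsc7_dim_sq]
  have h1 := tsc7_dom T Z hT c h
  set J := cfc (fun t : ℝ => max (c - t) 0) T with hJ
  set H := cfc (fun t : ℝ => √(max (c - t) 0)) T with hH
  have hHsa : IsSelfAdjoint H := cfc_predicate _ _
  have hJ0 : 0 ≤ J := cfc_nonneg fun t _ => le_max_right _ _
  have hJJ : 0 ≤ J * J := by
    have := star_mul_self_nonneg J
    rwa [hJ0.isSelfAdjoint.star_eq] at this
  set V : CStarMatrix G Unit R := M * (U * one1 H) with hV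
  have hH1 : (one1 H).conjTranspose = one1 H := by
    have : star (one1H H) = one1H (star H) := (map_star one1H H).symm
    rw [hHsa.star_eq] at this
    exact this
  have e1 : one1 (H * Z * H) = V.conjTranspose * V := by
    have e2 : one1 (H * Z * H) = one1 H * one1 Z * one1 H := by
      have : one1H (H * Z * H) = one1H H * one1H Z * one1H H := by rw [map_mul, map_mul]
      exact this
    rw [e2, hZ, hV, ← cm_assoc M U (one1 H), cm_conj_mul (M * U) (one1 H), hH1]
    simp only [cm_assoc]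
  have h2 : one1 (J * J) ≤ (1 : ℝ) • (V.conjTranspose * V) := by
    rw [one_smul, ← e1]
    have h9 := map_nonneg (one1H (A := R)) (sub_nonneg.2 h1)
    rw [map_sub] at h9
    exact sub_nonneg.1 h9
  have h3 : σ.dim (one1 (J * J)) ≤ σ.dim (V.conjTranspose * V) :=
    nearC_dim_le hLe hMo σ 1 zero_le_one _ _ (one1_nonneg hJJ) (cm_conj_mul_nonneg V) h2
  have h4 : σ.dim (V.conjTranspose * V) ≤ σ.dim (V * V.conjTranspose) :=
    nearC_dim_swap hSw hMo σ V
  have e3 : V * V.conjTranspose =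
      M * ((U * one1 H) * (U * one1 H).conjTranspose) * M := by
    rw [hV, cm_conj_mul M (U * one1 H), cm_star_eq M, hM.isSelfAdjoint.star_eq]
    simp only [cm_assoc]
  have h5 : σ.dim (V * V.conjTranspose) ≤ σ.dim M := by
    rw [e3]
    exact nearC_dim_sand hLe hMo σ M _ hM (cm_mul_conj_nonneg _)
  exact h3.trans (h4.trans h5)

end rank7

/-! ### Pullback of traces -/

section pull7
variable {A R : Type u} [CStarAlgebra A] [PartialOrder A] [StarOrderedRing A]
  [CStarAlgebra R] [PartialOrder R] [StarOrderedRing R]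

/-- The pullback of a tracial state. -/
def tsc7Pull (k : A →⋆ₐ[ℂ] R) (φ : TState R) : TState A where
  φ := φ.φ.comp k.toAlgHom.toLinearMap
  nonneg a ha := φ.nonneg _ (map_nonneg k ha)
  trace a b := by
    show φ.φ (k (a * b)) = φ.φ (k (b * a))
    rw [map_mul k, map_mul k, φ.trace]
  one := by
    show φ.φ (k 1) = 1
    rw [map_one, φ.one]

theorem tsc7Pull_apply (k : A →⋆ₐ[ℂ] R) (φ : TState R) (a : A) :
    (tsc7Pull k φ).φ a = φ.φ (k a) := rfl

theorem tsc7_dim_pull (k : A →⋆ₐ[ℂ] R) (hk : Function.Injective k) (φ : TState R)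
    (σ : QTrace R) (hσ : IsQ φ σ) (σA : QTrace A) (hA : IsQ (tsc7Pull k φ) σA) {ι : Type}
    [Fintype ι] [DecidableEq ι] (L : CStarMatrix ι ι A) (hL : 0 ≤ L) :
    σ.dim (mp k L) = σA.dim L := by
  unfold QTrace.dim
  refine iSup_congr fun n => ?_
  rw [← (mpP R A k hk ι ι L L).2.2.2 _ (by fun_prop) hL.isSelfAdjoint, hσ, hA]
  rfl

end pull7

/-! ### Crossed products -/

section cross7
variable {A R : Type u} [CStarAlgebra A] [CStarAlgebra R] {G : Type} [Group G] [Fintype G]

theorem tsc7_w_one {α : G → A ≃⋆ₐ[ℂ] A} {k : A →⋆ₐ[ℂ] R} {w : G → R}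
    (hk : IsCross α k w) : w 1 = 1 := by
  have h2 := hk.2.1 1 1
  rw [mul_one] at h2
  have h3 := (Unitary.mem_iff.mp (hk.1 1)).1
  calc w 1 = star (w 1) * w 1 * w 1 := by rw [h3, one_mul]
    _ = star (w 1) * (w 1 * w 1) := by rw [mul_assoc]
    _ = star (w 1) * w 1 := by rw [← h2]
    _ = 1 := h3

theorem tsc7_inj {α : G → A ≃⋆ₐ[ℂ] A} {k : A →⋆ₐ[ℂ] R} {w : G → R}
    (hk : IsCross α k w) : Function.Injective k := by
  classical
  intro a b hab
  obtain ⟨f, -, hu⟩ := hk.2.2.2 (k a)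
  have h1 : ∀ c : A, k c = k a → (fun g : G => if g = 1 then c else 0) = f := by
    intro c hc
    refine hu _ ?_
    rw [← hc]
    simp only
    rw [Finset.sum_eq_single 1]
    · rw [if_pos rfl, tsc7_w_one hk, mul_one]
    · intro g _ hg
      rw [if_neg hg, map_zero, zero_mul]
    · intro h
      exact absurd (Finset.mem_univ _) h
  have h2 := (h1 a rfl).trans (h1 b hab.symm).symm
  have h3 := congrFun h2 1
  simpa using h3

end cross7

/-! ### Scalar matrices -/

section scal7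
variable {A : Type u} [CStarAlgebra A] {G : Type} [Fintype G] [DecidableEq G]

/-- A scalar matrix. -/
def scal7 (A : Type u) [CStarAlgebra A] (μ : Matrix G G ℂ) : CStarMatrix G G A :=
  CStarMatrix.ofMatrix (μ.map (algebraMap ℂ A))

theorem scal7_apply (μ : Matrix G G ℂ) (i g : G) : scal7 A μ i g = algebraMap ℂ A (μ i g) := rfl

theorem scal7_mul (μ ν : Matrix G G ℂ) : scal7 A μ * scal7 A ν = scal7 A (μ * ν) := by
  ext i g
  rw [CStarMatrix.mul_apply, scal7_apply, Matrix.mul_apply, map_sum]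
  refine Finset.sum_congr rfl fun l _ => ?_
  rw [scal7_apply, scal7_apply, map_mul]

theorem scal7_one : scal7 A (1 : Matrix G G ℂ) = 1 := by
  ext i g
  rw [scal7_apply, CStarMatrix.one_apply, Matrix.one_apply]
  split_ifs <;> simp

theorem scal7_dg (μ : Matrix G G ℂ) (e : A) : scal7 A μ * dg G e = dg G e * scal7 A μ := by
  ext i g
  rw [CStarMatrix.mul_apply, CStarMatrix.mul_apply, Finset.sum_eq_single g, Finset.sum_eq_single i]
  · show scal7 A μ i g * (if g = g then e else 0) = (if i = i then e else 0) * scal7 A μ i g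
    rw [if_pos rfl, if_pos rfl, scal7_apply]
    exact Algebra.commutes _ _
  · intro b _ hb
    show (if i = b then e else 0) * _ = 0
    rw [if_neg (Ne.symm hb), zero_mul]
  · intro h
    exact absurd (Finset.mem_univ _) h
  · intro b _ hb
    show _ * (if b = g then e else 0) = 0
    rw [if_neg hb, mul_zero]
  · intro h
    exact absurd (Finset.mem_univ _) h

theorem dg7_conj (e : A) (y : CStarMatrix G G A) (i g : G) :
    (dg G e * y * dg G e) i g = e * y i g * e := by
  rw [CStarMatrix.mul_apply, Finset.sum_eq_single g, CStarMatrix.mul_apply,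
    Finset.sum_eq_single i]
  · show (if i = i then e else 0) * y i g * (if g = g then e else 0) = _
    rw [if_pos rfl, if_pos rfl]
  · intro b _ hb
    show (if i = b then e else 0) * _ = 0
    rw [if_neg (Ne.symm hb), zero_mul]
  · intro h
    exact absurd (Finset.mem_univ _) h
  · intro b _ hb
    show _ * (if b = g then e else 0) = 0
    rw [if_neg hb, mul_zero]
  · intro h
    exact absurd (Finset.mem_univ _) h

/-- A small change makes a scalar matrix invertible. -/
theorem scal7_inv (μ : Matrix G G ℂ) (δ : ℝ) (hδ : 0 < δ) : ∃ (t : ℂ) (ν : Matrix G G ℂ),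
    ‖t‖ < δ ∧ ν * (μ + t • (1 : Matrix G G ℂ)) = 1 ∧ (μ + t • (1 : Matrix G G ℂ)) * ν = 1 := by
  have hd : Dense (spectrum ℂ (-μ))ᶜ := (Matrix.finite_spectrum (-μ)).countable.dense_compl ℂ
  obtain ⟨t, ht, hdist⟩ := hd.exists_dist_lt 0 hδ
  rw [dist_eq_norm, zero_sub, norm_neg] at hdist
  have hu : IsUnit (μ + t • (1 : Matrix G G ℂ)) := by
    have h1 : IsUnit (algebraMap ℂ (Matrix G G ℂ) t - -μ) := spectrum.notMem_iff.1 ht
    rwa [sub_neg_eq_add, Algebra.algebraMap_eq_smul_one, add_comm] at h1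
  obtain ⟨v, hv⟩ := hu
  refine ⟨t, ((v⁻¹ : (Matrix G G ℂ)ˣ) : Matrix G G ℂ), hdist, ?_, ?_⟩
  · rw [← hv, Units.inv_mul]
  · rw [← hv, Units.mul_inv]

end scal7

/-! ### The packet -/

section main7
variable {A R : Type u} [CStarAlgebra A] [CStarAlgebra R] {G : Type} [Fintype G]

theorem tsc7_est (k : A →⋆ₐ[ℂ] R) (w : G → R) (e : A) (D : G → A) (δ : ℝ)
    (hD : ∀ g, ‖D g‖ ≤ δ) :
    ‖∑ g, k (e * D g * e) * w g‖ ≤ ‖e‖ * δ * ‖e‖ * ∑ g, ‖w g‖ := by
  rw [Finset.mul_sum]
  refine (norm_sum_le _ _).trans (Finset.sum_le_sum fun g _ => ?_)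
  refine (norm_mul_le _ _).trans (mul_le_mul_of_nonneg_right ?_ (norm_nonneg _))
  refine (NonUnitalStarAlgHom.norm_apply_le k _).trans ?_
  refine (norm_mul_le _ _).trans (mul_le_mul_of_nonneg_right ?_ (norm_nonneg _))
  refine (norm_mul_le _ _).trans (mul_le_mul_of_nonneg_left (hD g) (norm_nonneg _))

end main7

theorem tsc7 (hMat : MatASRP.{u}) (hH1 : H1LP.{u}) : TSCP.{u} := by
  intro A R _ _ _ _ _ _ G _ _ α k w hα hk hA e he hfix C _ _ _ j hj x η θ hη hθ
  classical
  have hkinj := tsc7_inj hk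
  have hw1 := tsc7_w_one hk
  have hn : (0 : ℝ) < Fintype.card G := by exact_mod_cast Fintype.card_pos
  obtain ⟨eq⟩ : Nonempty (G ≃ Fin (Fintype.card G)) := ⟨Fintype.equivFin G⟩
  have hd : ∀ i : G, ∃ (μ : G → ℂ) (y : G → A),
      ‖j (x (eq i)) - ∑ g, (μ g • (1 : R) + k (e * y g * e)) * w g‖ ≤ η / 3 :=
    fun i => hj.dense _ _ (by positivity)
  choose μ y hμy using hd
  obtain ⟨W, hW⟩ : ∃ W : ℝ, W = ∑ g, ‖w g‖ + 1 := ⟨_, rfl⟩
  have hWs : 0 ≤ ∑ g, ‖w g‖ := Finset.sum_nonneg fun g _ => norm_nonneg _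
  have hW0 : 0 < W := by rw [hW]; linarith
  have hWg : ∀ g, ‖w g‖ ≤ W := by
    intro g
    have := Finset.single_le_sum (f := fun g => ‖w g‖) (fun g _ => norm_nonneg _)
      (Finset.mem_univ g)
    rw [hW]
    linarith
  obtain ⟨t, ν, ht, hν1, hν2⟩ := scal7_inv (Matrix.of μ) (η / (3 * W)) (by positivity)
  set μ' : Matrix G G ℂ := Matrix.of μ + t • (1 : Matrix G G ℂ) with hμ'
  set Y : CStarMatrix G G A := CStarMatrix.ofMatrix (Matrix.of y) with hY
  set S : CStarMatrix G G A := scal7 A ν * Y with hS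
  obtain ⟨K, hK⟩ : ∃ K : ℝ, K = ‖e‖ * ‖scal7 A μ'‖ * ‖e‖ * W := ⟨_, rfl⟩
  have hK0 : 0 ≤ K := by rw [hK]; positivity
  obtain ⟨g', L', hg', hL', ⟨a, b, hab⟩, hSm⟩ := hH1 (CStarMatrix G G A) (hMat A hA G) (dg G e) S
    1 (η / (3 * (K + 1))) (θ / Fintype.card G) one_pos (by positivity) (by positivity)
  rw [one_smul] at hab
  set N : CStarMatrix G G A := scal7 A μ' * g' with hN
  set Ξ : CStarMatrix G G A := scal7 A μ' * (1 + dg G e * g' * dg G e) with hΞdef
  have hΞ' : Ξ = scal7 A μ' + dg G e * N * dg G e := by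
    rw [hΞdef, hN, mul_add, mul_one]
    congr 1
    rw [← mul_assoc, ← mul_assoc, scal7_dg, mul_assoc (dg G e)]
  have hΞ : ∀ i g, Ξ i g = algebraMap ℂ A (μ' i g) + e * N i g * e := by
    intro i g
    rw [hΞ', ← dg7_conj]
    rfl
  choose xc hxc using fun i => hj.mem (μ' i) (fun g => N i g)
  have hxc' : ∀ i, j (xc i) = ∑ g, k (Ξ i g) * w g := by
    intro i
    rw [hxc i]
    refine Finset.sum_congr rfl fun g _ => ?_
    rw [hΞ, map_add, AlgHomClass.commutes, Algebra.algebraMap_eq_smul_one]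
  -- the identity
  have hid : (a * scal7 A ν) * Ξ + b * L' = 1 := by
    have e1 : (a * scal7 A ν) * Ξ = a * (1 + dg G e * g' * dg G e) := by
      rw [hΞdef, mul_assoc a, ← mul_assoc (scal7 A ν), scal7_mul, hν1, scal7_one, one_mul]
    rw [e1]
    exact hab
  set U : CStarMatrix G Unit R := CStarMatrix.ofMatrix fun g _ => w g with hU
  set M : CStarMatrix G G R := mp k L' with hM
  have hM0 : 0 ≤ M := ((mpP R A k hkinj G G L' L').1).1 hL'
  have hUid : mp k (a * scal7 A ν) * (mp k Ξ * U) + mp k b * (M * U) = U := by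
    have e1 : mp k ((a * scal7 A ν) * Ξ + b * L') =
        mp k (a * scal7 A ν) * mp k Ξ + mp k b * mp k L' := by
      rw [← H62.mp_mul, ← H62.mp_mul]
      exact map_add (H62.mpH G k) _ _
    have e2 : mp k (1 : CStarMatrix G G A) = 1 := map_one (H62.mpH G k)
    rw [hid, e2] at e1
    calc mp k (a * scal7 A ν) * (mp k Ξ * U) + mp k b * (M * U)
        = (mp k (a * scal7 A ν) * mp k Ξ + mp k b * mp k L') * U := by
          rw [← cm_assoc, hM, ← cm_assoc]
          exact (Matrix.add_mul _ _ _).symm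
      _ = U := by rw [← e1, cm_one_mul]
  have hXU : ∀ i, (mp k Ξ * U) i () = j (xc i) := by
    intro i
    rw [hxc', CStarMatrix.mul_apply]
    rfl
  have hrow : ∑ i, mp k (a * scal7 A ν) 1 i * j (xc i) +
      ∑ l, mp k b 1 l * (M * U) l () = 1 := by
    have e1 := congrFun (congrFun hUid 1) ()
    have e2 : U 1 () = 1 := hw1
    rw [e2] at e1
    rw [← e1]
    show _ = (mp k (a * scal7 A ν) * (mp k Ξ * U)) 1 () + (mp k b * (M * U)) 1 ()
    rw [CStarMatrix.mul_apply, CStarMatrix.mul_apply]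
    congr 1
    refine Finset.sum_congr rfl fun i _ => ?_
    rw [hXU]
  obtain ⟨c, hc, hlow⟩ := tsc7_low' (ι := G ⊕ G)
    (Sum.elim (fun i => mp k (a * scal7 A ν) 1 i) fun l => mp k b 1 l)
    (Sum.elim (fun i => j (xc i)) fun l => (M * U) l ()) (by
      rw [Fintype.sum_sum_type]
      exact hrow)
  rw [Fintype.sum_sum_type] at hlow
  simp only [Sum.elim_inl, Sum.elim_inr] at hlow
  set T₀ : C := ∑ i, sq (xc i) with hT₀
  have hT₀0 : 0 ≤ T₀ := Finset.sum_nonneg fun i _ => star_mul_self_nonneg _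
  have hjT : j T₀ = ∑ i, sq (j (xc i)) := by
    rw [hT₀, map_sum]
    refine Finset.sum_congr rfl fun i _ => ?_
    rw [map_mul, map_star]
  set Z : R := ∑ l, sq ((M * U) l ()) with hZ
  have hZ1 : one1 Z = (M * U).conjTranspose * (M * U) := by
    ext i i'
    rw [CStarMatrix.mul_apply]
    rfl
  refine ⟨fun m => xc (eq.symm m), fun m => cfc (fun t : ℝ => (max c t)⁻¹) T₀ *
    star (xc (eq.symm m)), cfc (fun t : ℝ => (max c t)⁻¹) T₀,
    cfc (fun t : ℝ => max (c - t) 0) T₀, ?_, cfc_nonneg fun t _ => le_max_right _ _, ?_, ?_⟩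
  · intro m
    obtain ⟨i, rfl⟩ := eq.surjective m
    show ‖x (eq i) - xc (eq.symm (eq i))‖ ≤ η
    rw [Equiv.symm_apply_apply]
    have h1 : ‖x (eq i) - xc i‖ = ‖j (x (eq i) - xc i)‖ :=
      (NonUnitalStarAlgHom.norm_map j hj.inj _).symm
    rw [h1, map_sub, hxc i]
    have h2 : j (x (eq i)) - ∑ g, (μ' i g • (1 : R) + k (e * N i g * e)) * w g =
        (j (x (eq i)) - ∑ g, (μ i g • (1 : R) + k (e * y i g * e)) * w g) +
          (-(t • w i) + ∑ g, k (e * (Y i g - N i g) * e) * w g) := by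
      have e1 : ∑ g, k (e * (Y i g - N i g) * e) * w g =
          ∑ g, k (e * y i g * e) * w g - ∑ g, k (e * N i g * e) * w g := by
        rw [← Finset.sum_sub_distrib]
        refine Finset.sum_congr rfl fun g _ => ?_
        have : Y i g = y i g := rfl
        rw [this, mul_sub, sub_mul, map_sub, sub_mul]
      have e2 : ∑ g, (μ' i g • (1 : R)) * w g = ∑ g, (μ i g • (1 : R)) * w g + t • w i := by
        have e3 : t • w i = ∑ g, (t * (1 : Matrix G G ℂ) i g) • w g := by
          rw [Finset.sum_eq_single i]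
          · rw [Matrix.one_apply_eq, mul_one]
          · intro g _ hg
            rw [Matrix.one_apply_ne (Ne.symm hg), mul_zero, zero_smul]
          · intro h
            exact absurd (Finset.mem_univ _) h
        rw [e3, ← Finset.sum_add_distrib]
        refine Finset.sum_congr rfl fun g _ => ?_
        rw [smul_mul_assoc, one_mul, smul_mul_assoc, one_mul, ← add_smul]
        rfl
      simp only [add_mul, Finset.sum_add_distrib]
      rw [e1, e2]
      abel
    rw [h2]
    have n1 : ‖-(t • w i)‖ ≤ η / 3 := by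
      rw [norm_neg, norm_smul]
      calc ‖t‖ * ‖w i‖ ≤ η / (3 * W) * W :=
            mul_le_mul ht.le (hWg i) (norm_nonneg _) (by positivity)
        _ = η / 3 := by field_simp
    have n2 : ‖∑ g, k (e * (Y i g - N i g) * e) * w g‖ ≤ η / 3 := by
      have d1 : Y - N = scal7 A μ' * (S - g') := by
        rw [mul_sub, hS, ← mul_assoc, scal7_mul, hν2, scal7_one, one_mul]
      have d2 : ∀ g, ‖Y i g - N i g‖ ≤ ‖scal7 A μ'‖ * (η / (3 * (K + 1))) := by
        intro g
        have d3 : Y i g - N i g = (Y - N) i g := rfl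
        rw [d3]
        refine CStarMatrix.norm_entry_le_norm.trans ?_
        rw [d1]
        refine (norm_mul_le _ _).trans (mul_le_mul_of_nonneg_left ?_ (norm_nonneg _))
        rw [norm_sub_rev]
        exact hg'
      refine (tsc7_est k w e _ _ d2).trans ?_
      have d4 : ∑ g, ‖w g‖ ≤ W := by rw [hW]; linarith
      calc ‖e‖ * (‖scal7 A μ'‖ * (η / (3 * (K + 1)))) * ‖e‖ * ∑ g, ‖w g‖
          ≤ ‖e‖ * (‖scal7 A μ'‖ * (η / (3 * (K + 1)))) * ‖e‖ * W :=
            mul_le_mul_of_nonneg_left d4 (by positivity)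
        _ = K * (η / (3 * (K + 1))) := by rw [hK]; ring
        _ ≤ (K + 1) * (η / (3 * (K + 1))) :=
            mul_le_mul_of_nonneg_right (by linarith) (by positivity)
        _ = η / 3 := by field_simp
    calc _ ≤ ‖j (x (eq i)) - ∑ g, (μ i g • (1 : R) + k (e * y i g * e)) * w g‖ +
          (‖-(t • w i)‖ + ‖∑ g, k (e * (Y i g - N i g) * e) * w g‖) :=
          (norm_add_le _ _).trans (add_le_add_right (norm_add_le _ _) _)
      _ ≤ η / 3 + (η / 3 + η / 3) := add_le_add (hμy i) (add_le_add n1 n2)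
      _ = η := by ring
  · have e1 : ∑ m : Fin (Fintype.card G), cfc (fun t : ℝ => (max c t)⁻¹) T₀ *
        star (xc (eq.symm m)) * xc (eq.symm m) = cfc (fun t : ℝ => (max c t)⁻¹) T₀ * T₀ := by
      rw [Equiv.sum_comp eq.symm
        (fun i => cfc (fun t : ℝ => (max c t)⁻¹) T₀ * star (xc i) * xc i)]
      conv_rhs => rw [hT₀, Finset.mul_sum]
      refine Finset.sum_congr rfl fun m _ => ?_
      rw [mul_assoc]
    rw [e1, ← mul_add]
    exact tsc7_inv T₀ hT₀0 c hc
  · intro φ σ hσ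
    obtain ⟨σA, hσA⟩ := qOfTP A (tsc7Pull k φ)
    obtain ⟨ψ', σ', hQ', -, hdim⟩ := (matT_h5 A G).2 (tsc7Pull k φ) σA hσA
    have h1 := hSm ψ' σ' hQ'
    rw [hdim L' hL', ← tsc7_dim_pull k hkinj φ σ hσ σA hσA L' hL', ← hM] at h1
    have h2 : σ.dim M ≤ θ := (div_le_div_iff_of_pos_right hn).1 h1
    rw [mp_one1, starHom_cfc j _ (by fun_prop) T₀ hT₀0.isSelfAdjoint, hjT]
    refine (tsc7_rank Pool.Agent.Helper6.RC.cuLeAddP (cuSwapP intP)
      (qMonoP pedP (qSwapP intP) qBasicP) σ M hM0 U _ Z ?_ c hlow hZ1).trans h2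
    exact Finset.sum_nonneg fun i _ => star_mul_self_nonneg _

end RC
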